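import Pool.Agent.R179.Fac.Stmts

set_option autoImplicit false

open Set

namespace Pool.Agent.R179.Fac

namespace FacB

theorem large (a b c : ℝ) (hb : 0 < b) : ∃ M : ℝ, 0 ≤ M ∧ ∀ M', M ≤ M' → c < a + M' * b := by
  refine ⟨|c - a| / b + 1, by positivity, fun M' hM => ?_⟩
  have h1 : (|c - a| / b + 1) * b ≤ M' * b := mul_le_mul_of_nonneg_right hM hb.le
  have h2 : (|c - a| / b + 1) * b = |c - a| + b := by field_simp
  have h3 := le_abs_self (c - a)
  linarith

theorem orthn {n : ℕ} (hn : n < 3) (u : Fin n → E 3) :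
    ∃ v : E 3, v ≠ 0 ∧ ∀ i, inner ℝ (u i) v = (0 : ℝ) := by
  let f : E 3 →ₗ[ℝ] (Fin n → ℝ) := LinearMap.pi (fun i => innerₛₗ ℝ (u i))
  have h1 : Module.finrank ℝ (Fin n → ℝ) < Module.finrank ℝ (E 3) := by
    rw [Module.finrank_fin_fun, finrank_euclideanSpace_fin]; exact hn
  have h2 := LinearMap.ker_ne_bot_of_finrank_lt (f := f) h1
  obtain ⟨v, hv, hv0⟩ := Submodule.exists_mem_ne_zero_of_ne_bot h2
  refine ⟨v, hv0, fun i => ?_⟩
  have := congrFun (LinearMap.mem_ker.1 hv) i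
  exact this

theorem orth2 (a b : E 3) : ∃ v : E 3, v ≠ 0 ∧ inner ℝ a v = (0 : ℝ) ∧ inner ℝ b v = (0 : ℝ) := by
  obtain ⟨v, hv, h⟩ := orthn (n := 2) (by norm_num) ![a, b]
  exact ⟨v, hv, h 0, h 1⟩

variable {n : ℕ} {u : Fin n → E 3} {h : Fin n → ℝ}

theorem unb (hb : Bornology.IsBounded (HPoly u h)) {x0 : E 3} (hx0 : ∀ i, inner ℝ (u i) x0 < h i)
    {w : E 3} (hw : w ≠ 0) : ∃ k, 0 < inner ℝ (u k) w := by
  by_contra hcon
  push Not at hcon
  obtain ⟨R, hR⟩ := hb.exists_norm_le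
  have hw' : 0 < ‖w‖ := norm_pos_iff.2 hw
  obtain ⟨M, hM, hM'⟩ := large 0 ‖w‖ (R + ‖x0‖) hw'
  have h1 : x0 + M • w ∈ HPoly u h := by
    intro i
    rw [inner_add_right, real_inner_smul_right]
    have := mul_nonneg hM (neg_nonneg.2 (hcon i))
    have := hx0 i
    linarith
  have h2 := hR _ h1
  have h3 := hM' M le_rfl
  have h4 : ‖M • w‖ = M * ‖w‖ := by rw [norm_smul, Real.norm_of_nonneg hM]
  have h5 : ‖M • w‖ ≤ ‖x0 + M • w‖ + ‖x0‖ := by
    have := norm_sub_le (x0 + M • w) x0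
    rwa [add_sub_cancel_left] at this
  linarith

theorem reach_of (hV : St_V) (hx : ∃ x, ∀ i, inner ℝ (u i) x < h i) (hI : Irr u h) (z : E 3)
    {i j : Fin n} (hi : h i < inner ℝ (u i) z) (hj : h j < inner ℝ (u j) z) :
    (touch u h).Reachable i j := by
  have h1 := hV 3 n u h hx hI z ⟨i, hi⟩ ⟨j, hj⟩
  exact h1.map (SimpleGraph.Embedding.induce _).toHom

/-- reachability outside `S`. -/
def Rel (u : Fin n → E 3) (h : Fin n → ℝ) (S : Finset (Fin n)) (i j : Fin n) : Prop :=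
  ∃ (hi : i ∈ ((S : Set (Fin n))ᶜ)) (hj : j ∈ ((S : Set (Fin n))ᶜ)),
    ((touch u h).induce ((S : Set (Fin n))ᶜ)).Reachable ⟨i, hi⟩ ⟨j, hj⟩

theorem Rel.symm {S : Finset (Fin n)} {i j : Fin n} (hr : Rel u h S i j) : Rel u h S j i := by
  obtain ⟨a, b, c⟩ := hr
  exact ⟨b, a, c.symm⟩

theorem Rel.trans {S : Finset (Fin n)} {i j k : Fin n} (hr : Rel u h S i j)
    (hr' : Rel u h S j k) : Rel u h S i k := by
  obtain ⟨a, b, c⟩ := hr
  obtain ⟨a', b', c'⟩ := hr'
  exact ⟨a, b', c.trans c'⟩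

theorem reachS (hV : St_V) (hx : ∃ x, ∀ i, inner ℝ (u i) x < h i) (hI : Irr u h)
    (S : Finset (Fin n)) (z : E 3) (hz : ∀ i ∈ S, inner ℝ (u i) z ≤ h i)
    {i j : Fin n} (hi : h i < inner ℝ (u i) z) (hj : h j < inner ℝ (u j) z) : Rel u h S i j := by
  have h1 := hV 3 n u h hx hI z ⟨i, hi⟩ ⟨j, hj⟩
  have hsub : {k | h k < inner ℝ (u k) z} ⊆ ((S : Set (Fin n))ᶜ) := by
    intro k hk hkS
    exact absurd (hz k hkS) (not_le.2 hk)
  refine ⟨hsub hi, hsub hj, ?_⟩
  exact h1.map (SimpleGraph.induceHomOfLE (touch u h) hsub).toHom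

theorem far (hV : St_V) {x0 : E 3} (hx0 : ∀ i, inner ℝ (u i) x0 < h i) (hI : Irr u h)
    (S : Finset (Fin n)) (w : E 3) (hw : ∀ i ∈ S, inner ℝ (u i) w ≤ 0)
    {i j : Fin n} (hi : 0 < inner ℝ (u i) w) (hj : 0 < inner ℝ (u j) w) : Rel u h S i j := by
  obtain ⟨M, hM, hM'⟩ := large (inner ℝ (u i) x0) _ (h i) hi
  obtain ⟨N, hN, hN'⟩ := large (inner ℝ (u j) x0) _ (h j) hj
  refine reachS hV ⟨x0, hx0⟩ hI S (x0 + max M N • w) (fun k hk => ?_) ?_ ?_
  · rw [inner_add_right, real_inner_smul_right]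
    have h1 := hw k hk
    have h2 := hx0 k
    have h3 : 0 ≤ max M N * (-inner ℝ (u k) w) :=
      mul_nonneg (hM.trans (le_max_left _ _)) (by linarith)
    linarith
  · rw [inner_add_right, real_inner_smul_right]
    exact hM' _ (le_max_left _ _)
  · rw [inner_add_right, real_inner_smul_right]
    exact hN' _ (le_max_right _ _)

end FacB

open FacB in
theorem b1_of (hV : St_V) : St_B1 := by
  intro n u h hb ⟨x0, hx0⟩ hI
  constructor
  · by_contra hn
    obtain ⟨v, hv, hv'⟩ := orthn (not_le.1 hn) u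
    obtain ⟨k, hk⟩ := unb hb hx0 hv
    rw [hv' k] at hk
    exact lt_irrefl _ hk
  · have key : ∀ (i k : Fin n) (v : E 3), inner ℝ (u i) v = (0 : ℝ) → 0 < inner ℝ (u k) v →
        (touch u h).Reachable i k := by
      intro i k v hiv hkv
      obtain ⟨M, hM, hM'⟩ := large (inner ℝ (u k) (u i)) _ 0 hkv
      have h1 : 0 < inner ℝ (u i) (u i + M • v) := by
        rw [inner_add_right, real_inner_smul_right, hiv, mul_zero, add_zero]
        exact real_inner_self_pos.2 (hI.1 i)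
      have h2 : 0 < inner ℝ (u k) (u i + M • v) := by
        rw [inner_add_right, real_inner_smul_right]
        exact hM' M le_rfl
      obtain ⟨hi', hk', h3⟩ := far hV hx0 hI ∅ (u i + M • v) (by simp) h1 h2
      exact h3.map (SimpleGraph.Embedding.induce _).toHom
    intro i j
    obtain ⟨v, hv, hiv, hjv⟩ := orth2 (u i) (u j)
    obtain ⟨k, hk⟩ := unb hb hx0 hv
    exact (key i k v hiv hk).trans (key j k v hjv hk).symm

namespace FacB

variable {n : ℕ} {u : Fin n → E 3} {h : Fin n → ℝ}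

theorem count (S : Finset (Fin n)) (Φ : Fin n → Fin n × Bool) (hΦ : ∀ j, j ∉ S → (Φ j).1 ∈ S)
    (hinj : ∀ j, j ∉ S → ∀ j', j' ∉ S → Φ j = Φ j' → Rel u h S j j') :
    Nat.card ((touch u h).induce ((S : Set (Fin n))ᶜ)).ConnectedComponent ≤ 2 * S.card := by
  have hout : ∀ c : ((touch u h).induce ((S : Set (Fin n))ᶜ)).ConnectedComponent,
      (c.out : Fin n) ∉ S := fun c => by
    have hc := c.out.2
    rw [Set.mem_compl_iff, Finset.mem_coe] at hc
    exact hc
  let F : ((touch u h).induce ((S : Set (Fin n))ᶜ)).ConnectedComponent → S × Bool :=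
    fun c => (⟨(Φ c.out).1, hΦ _ (hout c)⟩, (Φ c.out).2)
  have hF : Function.Injective F := by
    intro c c' hcc
    have h1 : Φ c.out = Φ c'.out := by
      have h2 := congrArg (fun x => (x.1 : Fin n)) hcc
      have h3 := congrArg (fun x => x.2) hcc
      exact Prod.ext h2 h3
    obtain ⟨_, _, h4⟩ := hinj _ (hout c) _ (hout c') h1
    have h5 := SimpleGraph.ConnectedComponent.sound h4
    rw [← Quot.out_eq c, ← Quot.out_eq c']
    exact h5
  have := Nat.card_le_card_of_injective F hF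
  have h1 : Nat.card (S × Bool) = 2 * S.card := by
    rw [Nat.card_eq_fintype_card, Fintype.card_prod, Fintype.card_coe, Fintype.card_bool,
      mul_comm]
  rw [h1] at this
  exact this

theorem caseN (hV : St_V) (hx : ∃ x, ∀ i, inner ℝ (u i) x < h i) (hI : Irr u h)
    (S : Finset (Fin n)) {w : E 3} (hS : ∀ i ∈ S, inner ℝ (u i) w = (0 : ℝ)) {k j : Fin n}
    (hk : 0 < inner ℝ (u k) w) (hj : j ∉ S) (hjw : 0 ≤ inner ℝ (u j) w) : Rel u h S j k := by
  obtain ⟨y, hy1, hy2⟩ := hI.2 j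
  obtain ⟨M, hM, hM'⟩ := large (inner ℝ (u k) y) _ (h k) hk
  refine reachS hV hx hI S (y + M • w) (fun i hi => ?_) ?_ ?_
  · rw [inner_add_right, real_inner_smul_right, hS i hi, mul_zero, add_zero]
    exact (hy2 i (fun e => hj (e ▸ hi))).le
  · rw [inner_add_right, real_inner_smul_right]
    have := mul_nonneg hM hjw
    linarith
  · rw [inner_add_right, real_inner_smul_right]
    exact hM' M le_rfl

/-- vertex or ray. -/
theorem vr (S : Finset (Fin n))
    (hP : ∀ w : E 3, (∀ i ∈ S, inner ℝ (u i) w = (0 : ℝ)) → w = 0) (j : Fin n) (z0 : E 3)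
    (hz0 : ∀ i ∈ S, inner ℝ (u i) z0 ≤ h i) (hj : h j < inner ℝ (u j) z0) :
    (∃ w : E 3, (∀ i ∈ S, inner ℝ (u i) w ≤ 0) ∧ 0 < inner ℝ (u j) w) ∨
    (∃ z : E 3, (∀ i ∈ S, inner ℝ (u i) z ≤ h i) ∧ h j < inner ℝ (u j) z ∧
      ∀ w : E 3, (∀ i ∈ S, inner ℝ (u i) z = h i → inner ℝ (u i) w = (0 : ℝ)) → w = 0) := by
  classical
  by_contra hcon
  push Not at hcon
  obtain ⟨hray, hver⟩ := hcon
  have hmain : ∀ m : ℕ, ∃ z : E 3, (∀ i ∈ S, inner ℝ (u i) z ≤ h i) ∧ h j < inner ℝ (u j) z ∧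
      m ≤ (S.filter fun i => inner ℝ (u i) z = h i).card := by
    intro m
    induction m with
    | zero => exact ⟨z0, hz0, hj, Nat.zero_le _⟩
    | succ m ih =>
      obtain ⟨z, hz, hzj, hm⟩ := ih
      -- a direction
      obtain ⟨w, hw1, hw2, hw3⟩ : ∃ w : E 3,
          (∀ i ∈ S, inner ℝ (u i) z = h i → inner ℝ (u i) w = (0 : ℝ)) ∧
          0 ≤ inner ℝ (u j) w ∧ ∃ i ∈ S, 0 < inner ℝ (u i) w := by
        obtain ⟨w, hw1, hw0⟩ := hver z hz hzj
        have hneg : ∀ i ∈ S, inner ℝ (u i) z = h i → inner ℝ (u i) (-w) = (0 : ℝ) :=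
          fun i hi hi' => by rw [inner_neg_right, hw1 i hi hi', neg_zero]
        have hboth : (∃ i ∈ S, 0 < inner ℝ (u i) w) ∨ ∃ i ∈ S, 0 < inner ℝ (u i) (-w) := by
          by_contra hc
          push Not at hc
          apply hw0
          apply hP
          intro i hi
          have h1 := hc.1 i hi
          have h2 := hc.2 i hi
          rw [inner_neg_right] at h2
          linarith
        rcases lt_trichotomy (inner ℝ (u j) w) 0 with hlt | heq | hgt
        · refine ⟨-w, hneg, by rw [inner_neg_right]; linarith, ?_⟩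
          by_contra hc
          push Not at hc
          have := hray (-w) hc
          rw [inner_neg_right] at this
          linarith
        · rcases hboth with h1 | h1
          · exact ⟨w, hw1, heq.ge, h1⟩
          · exact ⟨-w, hneg, by rw [inner_neg_right, heq, neg_zero], h1⟩
        · refine ⟨w, hw1, hgt.le, ?_⟩
          by_contra hc
          push Not at hc
          have := hray w hc
          linarith
      have hne : (S.filter fun i => 0 < inner ℝ (u i) w).Nonempty := by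
        obtain ⟨i, hi, hi'⟩ := hw3
        exact ⟨i, Finset.mem_filter.2 ⟨hi, hi'⟩⟩
      obtain ⟨i0, hi0, hmin⟩ := Finset.exists_min_image _
        (fun i => (h i - inner ℝ (u i) z) / inner ℝ (u i) w) hne
      obtain ⟨hi0S, hi0w⟩ := Finset.mem_filter.1 hi0
      obtain ⟨t, ht⟩ : ∃ t, t = (h i0 - inner ℝ (u i0) z) / inner ℝ (u i0) w := ⟨_, rfl⟩
      have ht0 : 0 ≤ t := by
        rw [ht]
        exact div_nonneg (by linarith [hz i0 hi0S]) hi0w.le
      have hi0eq : inner ℝ (u i0) (z + t • w) = h i0 := by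
        rw [inner_add_right, real_inner_smul_right, ht, div_mul_cancel₀ _ hi0w.ne']
        ring
      refine ⟨z + t • w, fun i hi => ?_, ?_, ?_⟩
      · rw [inner_add_right, real_inner_smul_right]
        rcases le_or_gt (inner ℝ (u i) w) 0 with hle | hgt
        · have h1 := hz i hi
          have h2 : t * inner ℝ (u i) w ≤ 0 := mul_nonpos_of_nonneg_of_nonpos ht0 hle
          linarith
        · have h1 := hmin i (Finset.mem_filter.2 ⟨hi, hgt⟩)
          rw [← ht, le_div_iff₀ hgt] at h1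
          linarith
      · rw [inner_add_right, real_inner_smul_right]
        have := mul_nonneg ht0 hw2
        linarith
      · have hsub : insert i0 (S.filter fun i => inner ℝ (u i) z = h i) ⊆
            S.filter fun i => inner ℝ (u i) (z + t • w) = h i := by
          intro i hi
          rcases Finset.mem_insert.1 hi with rfl | hi
          · exact Finset.mem_filter.2 ⟨hi0S, hi0eq⟩
          · obtain ⟨h1, h2⟩ := Finset.mem_filter.1 hi
            refine Finset.mem_filter.2 ⟨h1, ?_⟩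
            rw [inner_add_right, real_inner_smul_right, hw1 i h1 h2, mul_zero, add_zero, h2]
        have hnot : i0 ∉ S.filter fun i => inner ℝ (u i) z = h i := by
          intro hmem
          obtain ⟨h1, h2⟩ := Finset.mem_filter.1 hmem
          rw [hw1 i0 h1 h2] at hi0w
          exact lt_irrefl _ hi0w
        have h3 := Finset.card_le_card hsub
        rw [Finset.card_insert_of_notMem hnot] at h3
        omega
  obtain ⟨z, -, -, hm⟩ := hmain (S.card + 1)
  have := Finset.card_filter_le S (fun i => inner ℝ (u i) z = h i)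
  omega

/-- three independent active constraints. -/
theorem basis3 (A : Set (E 3)) (hA : ∀ w : E 3, (∀ a ∈ A, inner ℝ a w = (0 : ℝ)) → w = 0) :
    ∃ b : Module.Basis (Fin 3) ℝ (E 3), ∀ k, b k ∈ A := by
  obtain ⟨B, hBA, hspan, hli⟩ := exists_linearIndependent ℝ A
  have htop : Submodule.span ℝ A = ⊤ := by
    rw [← Submodule.orthogonal_eq_bot_iff, Submodule.eq_bot_iff]
    intro w hw
    apply hA
    intro a ha
    exact hw a (Submodule.subset_span ha)
  rw [htop] at hspan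
  let b0 : Module.Basis B ℝ (E 3) := Module.Basis.mk hli (by
    rw [Subtype.range_coe_subtype]
    simpa using hspan.ge)
  have hfin : Finite B := Module.Finite.finite_basis b0
  have hcard : Nat.card B = 3 := by
    rw [← Module.finrank_eq_nat_card_basis b0, finrank_euclideanSpace_fin]
  let e : B ≃ Fin 3 := Finite.equivFinOfCardEq hcard
  refine ⟨b0.reindex e, fun k => ?_⟩
  rw [Module.Basis.reindex_apply, Module.Basis.mk_apply]
  exact hBA (e.symm k).2

/-- the linear functional. -/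
theorem exists_f (S : Finset (Fin n))
    (hP : ∀ w : E 3, (∀ i ∈ S, inner ℝ (u i) w = (0 : ℝ)) → w = 0)
    (v : Fin n → Fin n → E 3) (hv : ∀ a b, v a b ≠ 0) :
    ∃ f : E 3, (∀ a b, inner ℝ f (v a b) ≠ (0 : ℝ)) ∧
      ∀ w : E 3, w ≠ 0 → (∀ i ∈ S, inner ℝ (u i) w ≤ 0) → 0 < inner ℝ f w := by
  classical
  let p : Fin n → Fin n → Polynomial ℝ := fun a b =>
    ∑ i ∈ S, Polynomial.C (inner ℝ (u i) (v a b)) * Polynomial.X ^ (i : ℕ)
  have hp : ∀ a b, p a b ≠ 0 := by
    intro a b h0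
    obtain ⟨k, hk, hk'⟩ : ∃ k ∈ S, inner ℝ (u k) (v a b) ≠ (0 : ℝ) := by
      by_contra hc
      push Not at hc
      exact hv a b (hP _ hc)
    apply hk'
    have h1 := congrArg (fun q => Polynomial.coeff q (k : ℕ)) h0
    simp only [p, Polynomial.finsetSum_coeff, Polynomial.coeff_C_mul, Polynomial.coeff_X_pow,
      Polynomial.coeff_zero, mul_ite, mul_one, mul_zero] at h1
    rw [Finset.sum_eq_single k] at h1
    · simpa using h1
    · intro i _ hik
      rw [if_neg (fun e => hik (Fin.ext e.symm))]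
    · intro h; exact absurd hk h
  have hfin : {t : ℝ | ∃ a b, (p a b).IsRoot t}.Finite := by
    have : {t : ℝ | ∃ a b, (p a b).IsRoot t} = ⋃ a, ⋃ b, {t | (p a b).IsRoot t} := by
      ext t; simp
    rw [this]
    exact Set.finite_iUnion fun a => Set.finite_iUnion fun b =>
      Polynomial.finite_setOfPred_isRoot (hp a b)
  obtain ⟨t, ht, ht'⟩ := ((Set.Ioi_infinite (0 : ℝ)).sdiff hfin).nonempty
  have ht0 : 0 < t := ht
  refine ⟨-∑ i ∈ S, t ^ (i : ℕ) • u i, fun a b h0 => ?_, fun w hw hC => ?_⟩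
  · apply ht'
    refine ⟨a, b, ?_⟩
    rw [inner_neg_left, neg_eq_zero, sum_inner] at h0
    rw [Polynomial.IsRoot, Polynomial.eval_finsetSum, ← h0]
    refine Finset.sum_congr rfl fun i _ => ?_
    rw [real_inner_smul_left, Polynomial.eval_mul, Polynomial.eval_C, Polynomial.eval_pow,
      Polynomial.eval_X, mul_comm]
  · rw [inner_neg_left, sum_inner, ← Finset.sum_neg_distrib]
    obtain ⟨k, hk, hk'⟩ : ∃ k ∈ S, inner ℝ (u k) w ≠ (0 : ℝ) := by
      by_contra hc
      push Not at hc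
      exact hw (hP _ hc)
    refine Finset.sum_pos' (fun i hi => ?_) ⟨k, hk, ?_⟩
    · rw [real_inner_smul_left]
      have h1 := mul_nonneg (pow_pos ht0 (i : ℕ)).le (neg_nonneg.2 (hC i hi))
      linarith
    · rw [real_inner_smul_left]
      have h1 := mul_pos (pow_pos ht0 (k : ℕ)) (neg_pos.2 (lt_of_le_of_ne (hC k hk) hk'))
      linarith

/-- sign. -/
def sg (σ : Bool) : ℝ := if σ then 1 else -1

theorem signs (α : Fin 3 → ℝ) (hα : ∀ k, α k ≠ 0) :
    ∃ (c : Fin 3) (σ : Bool), ∀ k, k ≠ c → 0 < sg σ * α k := by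
  rcases lt_or_gt_of_ne (hα 0) with h0 | h0 <;> rcases lt_or_gt_of_ne (hα 1) with h1 | h1 <;>
    rcases lt_or_gt_of_ne (hα 2) with h2 | h2
  · refine ⟨2, false, fun k hk => ?_⟩
    fin_cases k <;> simp_all [sg]
  · refine ⟨2, false, fun k hk => ?_⟩
    fin_cases k <;> simp_all [sg]
  · refine ⟨1, false, fun k hk => ?_⟩
    fin_cases k <;> simp_all [sg]
  · refine ⟨0, true, fun k hk => ?_⟩
    fin_cases k <;> simp_all [sg]
  · refine ⟨0, false, fun k hk => ?_⟩
    fin_cases k <;> simp_all [sg]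
  · refine ⟨1, true, fun k hk => ?_⟩
    fin_cases k <;> simp_all [sg]
  · refine ⟨2, true, fun k hk => ?_⟩
    fin_cases k <;> simp_all [sg]
  · refine ⟨2, true, fun k hk => ?_⟩
    fin_cases k <;> simp_all [sg]

/-- `z` is the unique maximizer of `σ f` on the face `c` of `R`. -/
def Vtx (u : Fin n → E 3) (h : Fin n → ℝ) (S : Finset (Fin n)) (f z : E 3) (c : Fin n)
    (σ : Bool) : Prop :=
  (∀ i ∈ S, inner ℝ (u i) z ≤ h i) ∧ c ∈ S ∧ inner ℝ (u c) z = h c ∧
  ∀ x : E 3, (∀ i ∈ S, inner ℝ (u i) x ≤ h i) → inner ℝ (u c) x = h c → x ≠ z →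
    sg σ * inner ℝ f x < sg σ * inner ℝ f z

theorem vtx (S : Finset (Fin n)) (v : Fin n → Fin n → E 3)
    (hv : ∀ a b, inner ℝ (u a) (v a b) = (0 : ℝ) ∧ inner ℝ (u b) (v a b) = (0 : ℝ)) (f : E 3)
    (hf : ∀ a b, inner ℝ f (v a b) ≠ (0 : ℝ)) (z : E 3)
    (hz : ∀ i ∈ S, inner ℝ (u i) z ≤ h i)
    (hspan : ∀ w : E 3, (∀ i ∈ S, inner ℝ (u i) z = h i → inner ℝ (u i) w = (0 : ℝ)) → w = 0) :
    ∃ c σ, Vtx u h S f z c σ := by
  obtain ⟨b, hb⟩ := basis3 (u '' {i | i ∈ S ∧ inner ℝ (u i) z = h i}) (fun w hw => hspan w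
    (fun i hi hi' => hw _ ⟨i, ⟨hi, hi'⟩, rfl⟩))
  choose a ha hab using hb
  have hfb : f = ∑ k, b.repr f k • u (a k) := by
    simp only [hab]
    exact (b.sum_repr f).symm
  have hα : ∀ k, b.repr f k ≠ 0 := by
    intro k h0
    -- the two other indices
    obtain ⟨p, q, hpq⟩ : ∃ p q : Fin 3, ∀ l, l ≠ k → l = p ∨ l = q := by
      fin_cases k
      · exact ⟨1, 2, by decide⟩
      · exact ⟨0, 2, by decide⟩
      · exact ⟨0, 1, by decide⟩
    apply hf (a p) (a q)
    rw [hfb, sum_inner]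
    refine Finset.sum_eq_zero fun l _ => ?_
    rw [real_inner_smul_left]
    by_cases hl : l = k
    · rw [hl, h0, zero_mul]
    · rcases hpq l hl with rfl | rfl
      · rw [(hv _ _).1, mul_zero]
      · rw [(hv _ _).2, mul_zero]
  obtain ⟨c, σ, hσ⟩ := signs _ hα
  refine ⟨a c, σ, hz, (ha c).1, (ha c).2, fun x hx hxc hxz => ?_⟩
  by_contra hcon
  rw [not_lt] at hcon
  apply hxz
  have h1 : sg σ * inner ℝ f (x - z) =
      ∑ k, (sg σ * b.repr f k) * inner ℝ (u (a k)) (x - z) := by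
    conv_lhs => rw [hfb]
    rw [sum_inner, Finset.mul_sum]
    refine Finset.sum_congr rfl fun k _ => ?_
    rw [real_inner_smul_left]; ring
  have h2 : ∀ k ∈ Finset.univ, (sg σ * b.repr f k) * inner ℝ (u (a k)) (x - z) ≤ 0 := by
    intro k _
    by_cases hk : k = c
    · rw [hk, inner_sub_right, hxc, (ha c).2, sub_self, mul_zero]
    · refine mul_nonpos_of_nonneg_of_nonpos (hσ k hk).le ?_
      rw [inner_sub_right, (ha k).2]
      have := hx _ (ha k).1
      linarith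
  have h3 : 0 ≤ sg σ * inner ℝ f (x - z) := by
    rw [inner_sub_right, mul_sub]; linarith
  have h4 : ∑ k, (sg σ * b.repr f k) * inner ℝ (u (a k)) (x - z) = 0 :=
    le_antisymm (Finset.sum_nonpos h2) (h1 ▸ h3)
  rw [Finset.sum_eq_zero_iff_of_nonpos h2] at h4
  have h5 : ∀ k, inner ℝ (u (a k)) (x - z) = (0 : ℝ) := by
    intro k
    by_cases hk : k = c
    · rw [hk, inner_sub_right, hxc, (ha c).2, sub_self]
    · exact (mul_eq_zero.1 (h4 k (Finset.mem_univ _))).resolve_left (hσ k hk).ne'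
  have h6 : x - z = 0 := by
    have h7 : ∀ y : E 3, inner ℝ y (x - z) = (0 : ℝ) := by
      intro y
      rw [← b.sum_repr y, sum_inner]
      refine Finset.sum_eq_zero fun k _ => ?_
      rw [real_inner_smul_left, ← hab, h5, mul_zero]
    exact inner_self_eq_zero.1 (h7 (x - z))
  exact sub_eq_zero.1 h6

/-- a ray on a facet. -/
theorem rayface (S : Finset (Fin n)) (hSn : S.Nonempty) (hu : ∀ i, u i ≠ 0) {w0 : E 3}
    (hw0 : w0 ≠ 0) (hC : ∀ i ∈ S, inner ℝ (u i) w0 ≤ 0) :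
    ∃ c ∈ S, ∃ w : E 3, w ≠ 0 ∧ (∀ i ∈ S, inner ℝ (u i) w ≤ 0) ∧ inner ℝ (u c) w = (0 : ℝ) := by
  classical
  by_cases hex : ∃ c ∈ S, inner ℝ (u c) w0 = (0 : ℝ)
  · obtain ⟨c, hc, hc'⟩ := hex
    exact ⟨c, hc, w0, hw0, hC, hc'⟩
  push Not at hex
  have hlt : ∀ i ∈ S, inner ℝ (u i) w0 < 0 := fun i hi => lt_of_le_of_ne (hC i hi) (hex i hi)
  obtain ⟨i1, hi1⟩ := hSn
  obtain ⟨e, he, he1, he2⟩ := orth2 (u i1) w0
  obtain ⟨d, hd⟩ : ∃ d : E 3, d = u i1 + e := ⟨_, rfl⟩
  have hd1 : 0 < inner ℝ (u i1) d := by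
    rw [hd, inner_add_right, he1, add_zero]
    exact real_inner_self_pos.2 (hu i1)
  have hne : (S.filter fun i => 0 < inner ℝ (u i) d).Nonempty :=
    ⟨i1, Finset.mem_filter.2 ⟨hi1, hd1⟩⟩
  obtain ⟨i0, hi0, hmin⟩ := Finset.exists_min_image _
    (fun i => (-inner ℝ (u i) w0) / inner ℝ (u i) d) hne
  obtain ⟨hi0S, hi0d⟩ := Finset.mem_filter.1 hi0
  obtain ⟨t, ht⟩ : ∃ t, t = (-inner ℝ (u i0) w0) / inner ℝ (u i0) d := ⟨_, rfl⟩
  have ht0 : 0 < t := by
    rw [ht]
    exact div_pos (by linarith [hlt i0 hi0S]) hi0d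
  refine ⟨i0, hi0S, w0 + t • d, ?_, fun i hi => ?_, ?_⟩
  · intro h0
    have h1 := congrArg (fun x => inner ℝ e x) h0
    simp only [inner_add_right, real_inner_smul_right, inner_zero_right, hd] at h1
    rw [real_inner_comm, he2, real_inner_comm, he1, zero_add, zero_add] at h1
    have h2 : 0 < inner ℝ e e := real_inner_self_pos.2 he
    have h3 := mul_pos ht0 h2
    linarith
  · rw [inner_add_right, real_inner_smul_right]
    rcases le_or_gt (inner ℝ (u i) d) 0 with hle | hgt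
    · have h1 := hC i hi
      have h2 : t * inner ℝ (u i) d ≤ 0 := mul_nonpos_of_nonneg_of_nonpos ht0.le hle
      linarith
    · have h1 := hmin i (Finset.mem_filter.2 ⟨hi, hgt⟩)
      rw [← ht, le_div_iff₀ hgt] at h1
      linarith
  · rw [inner_add_right, real_inner_smul_right, ht, div_mul_cancel₀ _ hi0d.ne']
    ring

/-- all the rays are in one component. -/
theorem rays (hV : St_V) (hb : Bornology.IsBounded (HPoly u h)) {x0 : E 3}
    (hx0 : ∀ i, inner ℝ (u i) x0 < h i) (hI : Irr u h) (S : Finset (Fin n)) (f : E 3)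
    (hf : ∀ w : E 3, w ≠ 0 → (∀ i ∈ S, inner ℝ (u i) w ≤ 0) → 0 < inner ℝ f w)
    {w w' : E 3} (hw : ∀ i ∈ S, inner ℝ (u i) w ≤ 0) (hw' : ∀ i ∈ S, inner ℝ (u i) w' ≤ 0)
    {j j' : Fin n} (hj : 0 < inner ℝ (u j) w) (hj' : 0 < inner ℝ (u j') w') :
    Rel u h S j j' := by
  by_contra hcon
  have hconv : Convex ℝ {x : E 3 | (∀ i ∈ S, inner ℝ (u i) x ≤ 0) ∧ 0 < inner ℝ f x} := by
    rintro x ⟨hx1, hx2⟩ y ⟨hy1, hy2⟩ a b ha hb hab
    refine ⟨fun i hi => ?_, ?_⟩
    · rw [inner_add_right, real_inner_smul_right, real_inner_smul_right]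
      have h1 := mul_nonneg ha (neg_nonneg.2 (hx1 i hi))
      have h2 := mul_nonneg hb (neg_nonneg.2 (hy1 i hi))
      linarith
    · rw [inner_add_right, real_inner_smul_right, real_inner_smul_right]
      rcases ha.eq_or_lt with rfl | ha'
      · rw [zero_add] at hab
        rw [hab]; linarith
      · have h1 := mul_pos ha' hx2
        have h2 := mul_nonneg hb hy2.le
        linarith
  have hne : ∀ {x : E 3} {k : Fin n}, 0 < inner ℝ (u k) x → x ≠ 0 := by
    rintro x k hk rfl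
    rw [inner_zero_right] at hk
    exact lt_irrefl _ hk
  have hopen : ∀ k, IsOpen {x : E 3 | 0 < inner ℝ (u k) x} := fun k =>
    isOpen_lt continuous_const (by fun_prop)
  obtain ⟨x, hx, hxU, hxV⟩ := hconv.isPreconnected
    (⋃ k ∈ {k | Rel u h S j k}, {x : E 3 | 0 < inner ℝ (u k) x})
    (⋃ k ∈ {k | ¬ Rel u h S j k}, {x : E 3 | 0 < inner ℝ (u k) x})
    (isOpen_biUnion fun k _ => hopen k) (isOpen_biUnion fun k _ => hopen k)
    (by
      rintro x ⟨hx1, hx2⟩
      have hx0' : x ≠ 0 := by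
        rintro rfl
        rw [inner_zero_right] at hx2
        exact lt_irrefl _ hx2
      obtain ⟨k, hk⟩ := unb hb hx0 hx0'
      by_cases hr : Rel u h S j k
      · left; simp only [mem_iUnion]; exact ⟨k, hr, hk⟩
      · right; simp only [mem_iUnion]; exact ⟨k, hr, hk⟩)
    ⟨w, ⟨hw, hf w (hne hj) hw⟩, by
      simp only [mem_iUnion]
      exact ⟨j, far hV hx0 hI S w hw hj hj, hj⟩⟩
    ⟨w', ⟨hw', hf w' (hne hj') hw'⟩, by
      simp only [mem_iUnion]
      exact ⟨j', hcon, hj'⟩⟩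
  simp only [mem_iUnion] at hxU hxV
  obtain ⟨k, hk, hk'⟩ := hxU
  obtain ⟨l, hl, hl'⟩ := hxV
  have hk1 : Rel u h S j k := hk
  have hl1 : ¬ Rel u h S j l := hl
  exact hl1 (hk1.trans (far hV hx0 hI S x hx.1 hk' hl'))

end FacB

open FacB in
theorem b2_of (hV : St_V) : St_B2 := by
  classical
  intro n u h hb ⟨x0, hx0⟩ hI S hSn
  by_cases hN : ∃ w : E 3, w ≠ 0 ∧ ∀ i ∈ S, inner ℝ (u i) w = (0 : ℝ)
  · obtain ⟨w, hw, hS⟩ := hN
    obtain ⟨kp, hkp⟩ := unb hb hx0 hw
    obtain ⟨km, hkm⟩ := unb hb hx0 (neg_ne_zero.2 hw)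
    obtain ⟨s0, hs0⟩ := hSn
    refine count S (fun j => (s0, decide (0 ≤ inner ℝ (u j) w))) (fun _ _ => hs0) ?_
    intro j hj j' hj' hΦ
    have h1 : decide (0 ≤ inner ℝ (u j) w) = decide (0 ≤ inner ℝ (u j') w) :=
      congrArg Prod.snd hΦ
    by_cases hjw : 0 ≤ inner ℝ (u j) w
    · have hjw' : 0 ≤ inner ℝ (u j') w := by
        rw [decide_eq_decide] at h1
        exact h1.1 hjw
      exact (caseN hV ⟨x0, hx0⟩ hI S hS hkp hj hjw).trans
        (caseN hV ⟨x0, hx0⟩ hI S hS hkp hj' hjw').symm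
    · have hjw' : ¬ 0 ≤ inner ℝ (u j') w := by
        rw [decide_eq_decide] at h1
        exact fun h2 => hjw (h1.2 h2)
      have hS' : ∀ i ∈ S, inner ℝ (u i) (-w) = (0 : ℝ) := fun i hi => by
        rw [inner_neg_right, hS i hi, neg_zero]
      have e1 : 0 ≤ inner ℝ (u j) (-w) := by rw [inner_neg_right]; linarith
      have e2 : 0 ≤ inner ℝ (u j') (-w) := by rw [inner_neg_right]; linarith
      exact (caseN hV ⟨x0, hx0⟩ hI S hS' hkm hj e1).trans
        (caseN hV ⟨x0, hx0⟩ hI S hS' hkm hj' e2).symm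
  · have hP : ∀ w : E 3, (∀ i ∈ S, inner ℝ (u i) w = (0 : ℝ)) → w = 0 := by
      intro w hw
      by_contra hw0
      exact hN ⟨w, hw0, hw⟩
    choose v hv0 hv1 hv2 using fun a b : Fin n => orth2 (u a) (u b)
    obtain ⟨f, hf1, hf2⟩ := exists_f S hP v hv0
    -- the special value
    obtain ⟨c, hc, hcs⟩ : ∃ c ∈ S, ∀ w : E 3, w ≠ 0 → (∀ i ∈ S, inner ℝ (u i) w ≤ 0) →
        ∀ z, ¬ Vtx u h S f z c true := by
      by_cases hC : ∃ w : E 3, w ≠ 0 ∧ ∀ i ∈ S, inner ℝ (u i) w ≤ 0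
      · obtain ⟨w0, hw0, hw0'⟩ := hC
        obtain ⟨c, hc, w, hw, hwC, hwc⟩ := rayface S hSn hI.1 hw0 hw0'
        refine ⟨c, hc, fun _ _ _ z hz => ?_⟩
        obtain ⟨hz1, _, hz2, hz3⟩ := hz
        have h1 := hz3 (z + w) (fun i hi => by
          rw [inner_add_right]
          have := hz1 i hi
          have := hwC i hi
          linarith) (by rw [inner_add_right, hwc, hz2, add_zero]) (by
          intro h0
          exact hw (by simpa using h0))
        have h2 := hf2 w hw hwC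
        simp only [sg, if_true, one_mul, inner_add_right] at h1
        linarith
      · obtain ⟨c, hc⟩ := hSn
        exact ⟨c, hc, fun w hw hw' => absurd ⟨w, hw, hw'⟩ hC⟩
    have hex : ∀ j : Fin n, ∃ p : Fin n × Bool, j ∉ S → (p.1 ∈ S ∧
        ((p = (c, true) ∧ ∃ w : E 3, (∀ i ∈ S, inner ℝ (u i) w ≤ 0) ∧ 0 < inner ℝ (u j) w) ∨
        ∃ z, Vtx u h S f z p.1 p.2 ∧ h j < inner ℝ (u j) z)) := by
      intro j
      by_cases hj : j ∈ S
      · exact ⟨(c, true), fun h => absurd hj h⟩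
      obtain ⟨y, hy1, hy2⟩ := hI.2 j
      rcases vr S hP j y (fun i hi => (hy2 i (fun e => hj (e ▸ hi))).le) hy1 with hr | hr
      · exact ⟨(c, true), fun _ => ⟨hc, Or.inl ⟨rfl, hr⟩⟩⟩
      · obtain ⟨z, hz1, hz2, hz3⟩ := hr
        obtain ⟨c', σ, hcσ⟩ := vtx S v (fun a b => ⟨hv1 a b, hv2 a b⟩) f hf1 z hz1 hz3
        exact ⟨(c', σ), fun _ => ⟨hcσ.2.1, Or.inr ⟨z, hcσ, hz2⟩⟩⟩
    choose Φ hΦ using hex
    refine count S Φ (fun j hj => (hΦ j hj).1) ?_
    intro j hj j' hj' heq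
    have hray : ∀ {w : E 3} {k : Fin n}, 0 < inner ℝ (u k) w → w ≠ 0 := by
      rintro x k hk rfl
      rw [inner_zero_right] at hk
      exact lt_irrefl _ hk
    rcases (hΦ j hj).2 with ⟨h1, w, hw, hjw⟩ | ⟨z, hz, hjz⟩
    · rcases (hΦ j' hj').2 with ⟨h2, w', hw', hjw'⟩ | ⟨z', hz', hjz'⟩
      · exact rays hV hb hx0 hI S f hf2 hw hw' hjw hjw'
      · rw [← heq, h1] at hz'
        exact absurd hz' (hcs w (hray hjw) hw z')
    · rcases (hΦ j' hj').2 with ⟨h2, w', hw', hjw'⟩ | ⟨z', hz', hjz'⟩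
      · rw [heq, h2] at hz
        exact absurd hz (hcs w' (hray hjw') hw' z)
      · rw [← heq] at hz'
        have hzz : z = z' := by
          by_contra hne
          have h3 := hz.2.2.2 z' hz'.1 hz'.2.2.1 (Ne.symm hne)
          have h4 := hz'.2.2.2 z hz.1 hz.2.2.1 hne
          linarith
        rw [← hzz] at hjz'
        exact reachS hV ⟨x0, hx0⟩ hI S z hz.1 hjz hjz'

end Pool.Agent.R179.Fac
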