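import Pool.Agent.R297.VC.Defs

/-! Piece M of MP_f7f1a6_co: the product measure on the dual group. -/

set_option autoImplicit false

open MeasureTheory Finset

namespace VdCExp

namespace MeasureAux

/-- the sign -/
def cs (e : Bool) : ZMod 3 := if e then 1 else -1

/-- the additive character of a point -/
noncomputable def phi (N : ℕ → ℕ) (ω : ∀ n, Fin (N n) × Bool) : GG N →+ ZMod 3 :=
  DFinsupp.sumAddHom fun n =>
    { toFun := fun v : V N n => cs (ω n).2 * v (ω n).1
      map_zero' := by simp
      map_add' := fun v w => by simp [mul_add] }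

/-- the character of a point -/
noncomputable def chi (N : ℕ → ℕ) (ω : ∀ n, Fin (N n) × Bool) : Dual (GG N) :=
  ⟨fun g => ZMod.toCircle (phi N ω g), fun x y => by
    show ZMod.toCircle (phi N ω (x + y)) = ZMod.toCircle (phi N ω x) * ZMod.toCircle (phi N ω y)
    rw [map_add, AddChar.map_add_eq_mul]⟩

lemma addChar_sum {ι : Type} (s : Finset ι) (f : ι → ZMod 3) :
    ZMod.toCircle (∑ i ∈ s, f i) = ∏ i ∈ s, ZMod.toCircle (f i) := by
  classical
  induction s using Finset.induction_on with
  | empty => simp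
  | insert a s ha ih => rw [Finset.sum_insert ha, Finset.prod_insert ha, AddChar.map_add_eq_mul, ih]

lemma chi_apply (N : ℕ → ℕ) (ω : ∀ n, Fin (N n) × Bool) (g : GG N) :
    (chi N ω).1 g = ∏ n ∈ g.support, ZMod.toCircle (cs (ω n).2 * g n (ω n).1) := by
  show ZMod.toCircle (phi N ω g) = _
  rw [phi, DFinsupp.sumAddHom_apply, DFinsupp.sum, addChar_sum]
  rfl

lemma continuous_eval (N : ℕ → ℕ) (g : GG N) :
    Continuous fun χ : Dual (GG N) => ((χ.1 g : Circle) : ℂ) := by
  refine continuous_subtype_val.comp ?_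
  have h1 : Continuous fun χ : Dual (GG N) => χ.1 := continuous_subtype_val
  exact (continuous_apply g).comp h1

lemma measurable_chi (N : ℕ → ℕ) : Measurable (chi N) := by
  letI : MeasurableSpace Circle := borel Circle
  haveI : BorelSpace Circle := ⟨rfl⟩
  have hb : borel (Dual (GG N)) =
      MeasurableSpace.comap Subtype.val (borel (GG N → Circle)) := borel_comap
  have hp : borel (GG N → Circle) = MeasurableSpace.pi :=
    (BorelSpace.measurable_eq (α := GG N → Circle)).symm
  rw [hp] at hb
  have h : Measurable fun ω => (chi N ω).1 := by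
    refine measurable_pi_lambda _ fun g => ?_
    simp only [chi_apply]
    refine Finset.measurable_prod _ fun n _ => ?_
    exact (Measurable.of_discrete (f := fun p : Fin (N n) × Bool =>
      ZMod.toCircle (cs p.2 * g n p.1))).comp (measurable_pi_apply n)
  intro s hs
  have hs' : @MeasurableSet _ (borel (Dual (GG N))) s := hs
  rw [hb] at hs'
  obtain ⟨t, ht, rfl⟩ := hs'
  exact h ht

lemma half_sum (z : ZMod 3) :
    ((ZMod.toCircle z : Circle) : ℂ) + ((ZMod.toCircle (-z) : Circle) : ℂ) =
      if z = 0 then 2 else -1 := by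
  have w1 : ((ZMod.toCircle (1 : ZMod 3) : Circle) : ℂ) ≠ 1 := by
    intro h
    have h2 : ZMod.toCircle (1 : ZMod 3) = ZMod.toCircle (0 : ZMod 3) := by
      rw [AddChar.map_zero_eq_one]
      exact Circle.ext h
    exact absurd (ZMod.injective_toCircle h2) (by decide)
  have h2 : ((ZMod.toCircle (2 : ZMod 3) : Circle) : ℂ) =
      ((ZMod.toCircle (1 : ZMod 3) : Circle) : ℂ) ^ 2 := by
    rw [← Circle.coe_pow, ← AddChar.map_nsmul_eq_pow]
    rfl
  have h3 : ((ZMod.toCircle (1 : ZMod 3) : Circle) : ℂ) ^ 3 = 1 := by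
    rw [← Circle.coe_pow, ← AddChar.map_nsmul_eq_pow]
    have : (3 : ℕ) • (1 : ZMod 3) = 0 := by decide
    rw [this, AddChar.map_zero_eq_one, Circle.coe_one]
  set w := ((ZMod.toCircle (1 : ZMod 3) : Circle) : ℂ) with hw
  have h4 : w + w ^ 2 = -1 := by
    have : (w - 1) * (w + w ^ 2 + 1) = 0 := by linear_combination h3
    rcases mul_eq_zero.1 this with h | h
    · exact absurd (sub_eq_zero.1 h) w1
    · linear_combination h
  have hz : z = 0 ∨ z = 1 ∨ z = 2 := by revert z; decide
  rcases hz with rfl | rfl | rfl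
  · rw [if_pos rfl, neg_zero, AddChar.map_zero_eq_one, Circle.coe_one]
    norm_num
  · have : (-1 : ZMod 3) = 2 := by decide
    rw [if_neg (by decide), this, h2]
    exact h4
  · have : (-2 : ZMod 3) = 1 := by decide
    rw [if_neg (by decide), this, h2, add_comm]
    exact h4

/-- the uniform measure of a factor -/
noncomputable def P (N : ℕ) (hN : 0 < N) : Measure (Fin N × Bool) :=
  haveI : Nonempty (Fin N) := ⟨⟨0, hN⟩⟩
  (PMF.uniformOfFintype (Fin N × Bool)).toMeasure

lemma isProb (N : ℕ) (hN : 0 < N) : IsProbabilityMeasure (P N hN) := by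
  unfold P
  infer_instance

lemma integral_factor (N : ℕ) (hN : 0 < N) (v : Fin N → ZMod 3) :
    ∫ p, ((ZMod.toCircle (cs p.2 * v p.1) : Circle) : ℂ) ∂(P N hN) =
      ((1 - 3 / 2 * ((wt v : ℝ) / N) : ℝ) : ℂ) := by
  have : Nonempty (Fin N) := ⟨⟨0, hN⟩⟩
  unfold P
  rw [PMF.integral_eq_sum]
  have hN0 : (N : ℂ) ≠ 0 := by exact_mod_cast hN.ne'
  have e1 : ∀ p : Fin N × Bool, ((PMF.uniformOfFintype (Fin N × Bool)) p).toReal =
      (1 : ℝ) / (2 * N) := by
    intro p
    rw [PMF.uniformOfFintype_apply, ENNReal.toReal_inv]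
    simp [mul_comm]
  simp only [e1]
  rw [Fintype.sum_prod_type]
  have e2 : ∀ j : Fin N, ∑ e : Bool, ((1 : ℝ) / (2 * N)) •
      ((ZMod.toCircle (cs (j, e).2 * v (j, e).1) : Circle) : ℂ) =
      (1 : ℂ) / (2 * N) * (2 - 3 * if v j ≠ 0 then 1 else 0) := by
    intro j
    rw [Fintype.sum_bool]
    have h := half_sum (v j)
    have t1 : cs true * v j = v j := by simp [cs]
    have t2 : cs false * v j = -v j := by simp [cs]
    simp only [t1, t2, Complex.real_smul]
    rw [← mul_add, h]
    push_cast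
    congr 1
    by_cases hz : v j = 0
    · simp [hz]
    · simp [hz]; norm_num
  rw [Finset.sum_congr rfl fun j _ => e2 j, ← Finset.mul_sum, Finset.sum_sub_distrib,
    ← Finset.mul_sum]
  have e3 : ∑ j : Fin N, (if v j ≠ 0 then (1 : ℂ) else 0) = wt v := by
    rw [Finset.sum_boole, wt]
  rw [e3]
  simp only [Finset.sum_const, Finset.card_univ, Fintype.card_fin, nsmul_eq_mul]
  push_cast
  field_simp

lemma integral_prod_inf {X : ℕ → Type} [∀ n, MeasurableSpace (X n)] (μ : ∀ n, Measure (X n))
    [∀ n, IsProbabilityMeasure (μ n)] (s : Finset ℕ) (f : ∀ n, X n → ℂ)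
    (hf : ∀ n, Measurable (f n)) :
    ∫ ω, ∏ n ∈ s, f n (ω n) ∂(Measure.infinitePi μ) = ∏ n ∈ s, ∫ x, f n x ∂(μ n) := by
  have h := integral_restrict_infinitePi (μ := μ) (s := s)
    (f := fun y => ∏ i : s, f i (y i))
    (by
      refine Measurable.aestronglyMeasurable ?_
      exact Finset.measurable_prod _ fun (i : s) _ => (hf i).comp (measurable_pi_apply i))
  rw [integral_fintype_prod_eq_prod] at h
  rw [← Finset.prod_coe_sort s fun n => ∫ x, f n x ∂(μ n), ← h]
  refine integral_congr_ae (Filter.Eventually.of_forall fun θ => ?_)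
  simp only [Finset.restrict]
  exact (Finset.prod_coe_sort s fun B => f B (θ B)).symm

end MeasureAux

open MeasureAux in
theorem stmtMeasure : StmtMeasure := by
  intro N hN
  have hP : ∀ n, IsProbabilityMeasure (P (N n) (hN n)) := fun n => isProb _ _
  refine ⟨(Measure.infinitePi fun n => P (N n) (hN n)).map (chi N),
    Measure.isProbabilityMeasure_map (measurable_chi N).aemeasurable, fun g => ?_⟩
  rw [integral_map (measurable_chi N).aemeasurable
    (continuous_eval N g).aestronglyMeasurable]
  simp only [chi_apply]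
  have e1 : ∀ ω : ∀ n, Fin (N n) × Bool,
      ((∏ n ∈ g.support, ZMod.toCircle (cs (ω n).2 * g n (ω n).1) : Circle) : ℂ) =
        ∏ n ∈ g.support, ((ZMod.toCircle (cs (ω n).2 * g n (ω n).1) : Circle) : ℂ) := fun ω =>
    map_prod Circle.coeHom _ _
  simp only [e1]
  rw [integral_prod_inf (fun n => P (N n) (hN n)) g.support
    (fun n p => ((ZMod.toCircle (cs p.2 * g n p.1) : Circle) : ℂ))
    fun n => Measurable.of_discrete]
  push_cast
  refine Finset.prod_congr rfl fun n _ => ?_
  rw [integral_factor, psi]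

end VdCExp
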