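import Pool.Agent.R515.VCTensorA

/-! Piece T of MP_f7f1a6_co: reverse hypercontractivity on `F_3^N`. -/

set_option autoImplicit false

open Finset

namespace VdCExp

namespace TensorAux

/-- the one-point inequality with exponent `r` -/
def StepA (θ : ℝ) (r : ℕ) : Prop := ∀ a0 a1 a2 b0 b1 b2 : ℝ, 0 ≤ a0 → 0 ≤ a1 → 0 ≤ a2 →
  0 ≤ b0 → 0 ≤ b1 → 0 ≤ b2 →
  3 * (((a0 + a1 + a2) / 3) * ((b0 + b1 + b2) / 3)) ^ r ≤
    (1 - θ) * (a0 ^ r * b0 ^ r + a1 ^ r * b1 ^ r + a2 ^ r * b2 ^ r) +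
    θ / 2 * ((a0 ^ r * b1 ^ r + a1 ^ r * b2 ^ r + a2 ^ r * b0 ^ r) +
      (a0 ^ r * b2 ^ r + a1 ^ r * b0 ^ r + a2 ^ r * b1 ^ r))

lemma exists_stepA {θ : ℝ} (h0 : 0 < θ) (h1 : θ < 1) : ∃ r : ℕ, 1 ≤ r ∧ StepA θ r := by
  set lam : ℝ := 3 * min (1 - θ) (θ / 2) with hlam
  have m1 : min (1 - θ) (θ / 2) ≤ 1 - θ := min_le_left _ _
  have m2 : min (1 - θ) (θ / 2) ≤ θ / 2 := min_le_right _ _
  have m0 : 0 < min (1 - θ) (θ / 2) := lt_min (by linarith) (by linarith)
  have hl : 0 < lam := by positivity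
  have hl1 : lam ≤ 1 := by rw [hlam]; linarith
  have g1 : lam / 3 ≤ 1 - θ := by rw [hlam]; linarith
  have g2 : lam / 3 ≤ θ / 2 := by rw [hlam]; linarith
  obtain ⟨p, hp⟩ := exists_nat_ge (9 / lam ^ 3 + 1)
  have hl3 : 0 < lam ^ 3 := by positivity
  have hp1 : 1 ≤ p := by
    have : (1 : ℝ) ≤ p := le_trans (by linarith [div_pos (by norm_num : (0 : ℝ) < 9) hl3]) hp
    exact_mod_cast this
  have hbig : 9 ≤ lam ^ 3 * p := by
    have h : 9 / lam ^ 3 ≤ p := by linarith
    rw [div_le_iff₀ hl3] at h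
    linarith
  refine ⟨2 * p, by omega, ?_⟩
  intro a0 a1 a2 b0 b1 b2 A0 A1 A2 B0 B1 B2
  have hθ : 0 ≤ 1 - θ := by linarith
  by_cases hA : a0 + a1 + a2 = 0
  · rw [hA, zero_div, zero_mul, zero_pow (by omega), mul_zero]
    positivity
  by_cases hB : b0 + b1 + b2 = 0
  · rw [hB, zero_div, mul_zero, zero_pow (by omega), mul_zero]
    positivity
  set S : ℝ := (a0 + a1 + a2) / 3 with hS
  set T : ℝ := (b0 + b1 + b2) / 3 with hT
  have S0 : 0 < S := by
    have : 0 < a0 + a1 + a2 := lt_of_le_of_ne (by positivity) (Ne.symm hA)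
    positivity
  have T0 : 0 < T := by
    have : 0 < b0 + b1 + b2 := lt_of_le_of_ne (by positivity) (Ne.symm hB)
    positivity
  have key := stepA_norm hl hl1 g1 g2 hp1 hbig
    (x0 := a0 / S - 1) (x1 := a1 / S - 1) (x2 := a2 / S - 1)
    (z0 := b0 / T - 1) (z1 := b1 / T - 1) (z2 := b2 / T - 1)
    (by
      have : a0 + a1 + a2 = 3 * S := by rw [hS]; ring
      have e : a0 / S + a1 / S + a2 / S = 3 := by
        rw [← add_div, ← add_div, this]; field_simp
      linarith)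
    (by
      have : b0 + b1 + b2 = 3 * T := by rw [hT]; ring
      have e : b0 / T + b1 / T + b2 / T = 3 := by
        rw [← add_div, ← add_div, this]; field_simp
      linarith)
    (by linarith [div_nonneg A0 S0.le]) (by linarith [div_nonneg A1 S0.le])
    (by linarith [div_nonneg A2 S0.le]) (by linarith [div_nonneg B0 T0.le])
    (by linarith [div_nonneg B1 T0.le]) (by linarith [div_nonneg B2 T0.le])
  simp only [add_sub_cancel] at key
  set r : ℕ := 2 * p with hr
  have hST : 0 < (S * T) ^ r := by positivity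
  have e : ∀ a b : ℝ, (S * T) ^ r * ((a / S) ^ r * (b / T) ^ r) = a ^ r * b ^ r := by
    intro a b
    rw [← mul_pow, ← mul_pow, ← mul_pow]
    congr 1
    field_simp
  have key2 := mul_le_mul_of_nonneg_left key hST.le
  calc 3 * (S * T) ^ r = (S * T) ^ r * 3 := by ring
    _ ≤ _ := key2
    _ = _ := by
      simp only [mul_add, ← mul_assoc, mul_comm ((S * T) ^ r) (1 - θ),
        mul_comm ((S * T) ^ r) (θ / 2)]
      simp only [mul_assoc, e]

lemma sum_zmod3 (F : ZMod 3 → ℝ) : ∑ s, F s = F 0 + F 1 + F 2 := Fin.sum_univ_three F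

lemma tensor {θ : ℝ} (h0 : 0 < θ) (h1 : θ < 1) {r : ℕ} (hA : StepA θ r) :
    ∀ (N : ℕ) (f g : (Fin N → ZMod 3) → ℝ), (∀ a, 0 ≤ f a) → (∀ b, 0 ≤ g b) →
    (3 : ℝ) ^ N * (((∑ a, f a) / 3 ^ N) * ((∑ b, g b) / 3 ^ N)) ^ r ≤
      ∑ a, ∑ b, f a ^ r * g b ^ r * ∏ i, kk θ (b i - a i) := by
  intro N
  induction N with
  | zero =>
    intro f g hf hg
    simp [mul_pow]
  | succ N ih =>
    intro f g hf hg
    have hk : ∀ v, 0 ≤ kk θ v := by
      intro v
      unfold kk
      split_ifs <;> linarith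
    have hsum : ∀ F : (Fin (N + 1) → ZMod 3) → ℝ, ∑ a, F a =
        ∑ s : ZMod 3, ∑ a : Fin N → ZMod 3, F (Fin.cons s a) := by
      intro F
      rw [← (Fin.consEquiv fun _ => ZMod 3).sum_comp, Fintype.sum_prod_type]
      rfl
    set F : ZMod 3 → ℝ := fun s => (∑ a : Fin N → ZMod 3, f (Fin.cons s a)) / 3 ^ N with hF
    set G : ZMod 3 → ℝ := fun s => (∑ a : Fin N → ZMod 3, g (Fin.cons s a)) / 3 ^ N with hG
    have F0 : ∀ s, 0 ≤ F s := fun s => div_nonneg (Finset.sum_nonneg fun a _ => hf _) (by positivity)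
    have G0 : ∀ s, 0 ≤ G s := fun s => div_nonneg (Finset.sum_nonneg fun a _ => hg _) (by positivity)
    have e1 : (∑ a, f a) / 3 ^ (N + 1) = (F 0 + F 1 + F 2) / 3 := by
      rw [hsum, sum_zmod3]
      simp only [hF]
      rw [pow_succ]
      field_simp
    have e2 : (∑ a, g a) / 3 ^ (N + 1) = (G 0 + G 1 + G 2) / 3 := by
      rw [hsum, sum_zmod3]
      simp only [hG]
      rw [pow_succ]
      field_simp
    have e3 : ∑ a, ∑ b, f a ^ r * g b ^ r * ∏ i, kk θ (b i - a i) =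
        ∑ s : ZMod 3, ∑ t : ZMod 3, kk θ (t - s) * ∑ a : Fin N → ZMod 3, ∑ b : Fin N → ZMod 3,
          f (Fin.cons s a) ^ r * g (Fin.cons t b) ^ r * ∏ i, kk θ (b i - a i) := by
      rw [hsum]
      refine Finset.sum_congr rfl fun s _ => ?_
      simp only [hsum]
      rw [Finset.sum_comm]
      refine Finset.sum_congr rfl fun t _ => ?_
      rw [Finset.mul_sum]
      refine Finset.sum_congr rfl fun a _ => ?_
      rw [Finset.mul_sum]
      refine Finset.sum_congr rfl fun b _ => ?_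
      rw [Fin.prod_univ_succ]
      simp only [Fin.cons_zero, Fin.cons_succ]
      ring
    have e4 : ∀ s t : ZMod 3, kk θ (t - s) * ((3 : ℝ) ^ N * (F s * G t) ^ r) ≤
        kk θ (t - s) * ∑ a : Fin N → ZMod 3, ∑ b : Fin N → ZMod 3,
          f (Fin.cons s a) ^ r * g (Fin.cons t b) ^ r * ∏ i, kk θ (b i - a i) := fun s t =>
      mul_le_mul_of_nonneg_left (ih (fun a => f (Fin.cons s a)) (fun b => g (Fin.cons t b))
        (fun a => hf _) fun b => hg _) (hk _)
    rw [e1, e2, e3]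
    refine le_trans ?_ (Finset.sum_le_sum fun s _ => Finset.sum_le_sum fun t _ => e4 s t)
    have key := hA (F 0) (F 1) (F 2) (G 0) (G 1) (G 2) (F0 0) (F0 1) (F0 2) (G0 0) (G0 1) (G0 2)
    have key2 := mul_le_mul_of_nonneg_left key (pow_nonneg (by norm_num : (0 : ℝ) ≤ 3) N)
    refine le_trans (le_of_eq ?_) (le_trans key2 (le_of_eq ?_))
    · rw [pow_succ]; ring
    · simp only [sum_zmod3]
      have k00 : kk θ ((0 : ZMod 3) - 0) = 1 - θ := by rw [kk, if_pos (by decide)]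
      have k11 : kk θ ((1 : ZMod 3) - 1) = 1 - θ := by rw [kk, if_pos (by decide)]
      have k22 : kk θ ((2 : ZMod 3) - 2) = 1 - θ := by rw [kk, if_pos (by decide)]
      have k01 : kk θ ((0 : ZMod 3) - 1) = θ / 2 := by rw [kk, if_neg (by decide)]
      have k02 : kk θ ((0 : ZMod 3) - 2) = θ / 2 := by rw [kk, if_neg (by decide)]
      have k10 : kk θ ((1 : ZMod 3) - 0) = θ / 2 := by rw [kk, if_neg (by decide)]
      have k12 : kk θ ((1 : ZMod 3) - 2) = θ / 2 := by rw [kk, if_neg (by decide)]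
      have k20 : kk θ ((2 : ZMod 3) - 0) = θ / 2 := by rw [kk, if_neg (by decide)]
      have k21 : kk θ ((2 : ZMod 3) - 1) = θ / 2 := by rw [kk, if_neg (by decide)]
      rw [k00, k11, k22, k01, k02, k10, k12, k20, k21]
      simp only [mul_pow]
      ring

end TensorAux

open TensorAux in
theorem stmtTensor : StmtTensor := by
  classical
  intro θ h0 h1
  obtain ⟨r, hr, hA⟩ := exists_stepA h0 h1
  refine ⟨r, hr, fun N A B => ?_⟩
  have h := tensor h0 h1 hA N (fun a => if a ∈ A then 1 else 0) (fun b => if b ∈ B then 1 else 0)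
    (fun a => by split_ifs <;> norm_num) (fun b => by split_ifs <;> norm_num)
  have c1 : ∀ C : Finset (Fin N → ZMod 3), ∑ a, (if a ∈ C then (1 : ℝ) else 0) = C.card := by
    intro C
    rw [Finset.sum_ite_mem, Finset.univ_inter, Finset.sum_const, nsmul_eq_mul, mul_one]
  rw [c1, c1] at h
  refine h.trans (le_of_eq ?_)
  have hr0 : r ≠ 0 := by omega
  have c2 : ∀ P : Prop, ∀ [Decidable P], (if P then (1 : ℝ) else 0) ^ r = if P then 1 else 0 := by
    intro P _
    split_ifs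
    · exact one_pow r
    · exact zero_pow hr0
  simp only [c2]
  have c3 : ∀ a, ∑ b, (if a ∈ A then (1 : ℝ) else 0) * (if b ∈ B then 1 else 0) *
      ∏ i, kk θ (b i - a i) = if a ∈ A then ∑ b ∈ B, ∏ i, kk θ (b i - a i) else 0 := by
    intro a
    split_ifs with ha
    · simp only [one_mul, ite_mul, zero_mul]
      rw [Finset.sum_ite_mem, Finset.univ_inter]
    · simp
  simp only [c3]
  rw [Finset.sum_ite_mem, Finset.univ_inter]

end VdCExp
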