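import Pool.Agent.R297.VC.Defs

/-! Piece T of MP_f7f1a6_co: reverse hypercontractivity on `F_3^N`. -/

set_option autoImplicit false

open Finset

namespace VdCExp

namespace TensorAux

lemma pow_bound {lam : ℝ} (hl : 0 < lam) (hl1 : lam ≤ 1) {p : ℕ} {x : ℝ}
    (hx1 : -1 ≤ x) (hx2 : -(6 / lam) ≤ ((2 * p : ℕ) : ℝ) * x) :
    1 + ((2 * p : ℕ) : ℝ) * x + lam ^ 2 / 36 * (((2 * p : ℕ) : ℝ) * x) ^ 2 ≤
      (1 + x) ^ (2 * p) := by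
  by_cases h : 0 ≤ 1 + p * x
  · have h1 : 1 + p * x ≤ (1 + x) ^ p := one_add_mul_le_pow (by linarith) p
    have h2 : (1 + p * x) ^ 2 ≤ ((1 + x) ^ p) ^ 2 := pow_le_pow_left₀ h h1 2
    rw [← pow_mul, mul_comm p 2] at h2
    refine le_trans ?_ h2
    push_cast
    have : lam ^ 2 ≤ 1 := pow_le_one₀ hl.le hl1
    linarith [mul_nonneg (sub_nonneg.2 this) (sq_nonneg ((p : ℝ) * x)), sq_nonneg ((p : ℝ) * x)]
  · push Not at h
    have h0 : 0 ≤ (1 + x) ^ (2 * p) := by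
      rw [pow_mul']; positivity
    refine le_trans ?_ h0
    push_cast at hx2 ⊢
    set y : ℝ := 2 * p * x with hy
    have hy2 : y < -2 := by linarith
    have h3 : lam ^ 2 / 36 * y ^ 2 ≤ 1 := by
      have h4 : y ^ 2 ≤ (6 / lam) ^ 2 := by
        exact sq_le_sq' (by linarith) (by linarith [div_pos (by norm_num : (0 : ℝ) < 6) hl])
      calc lam ^ 2 / 36 * y ^ 2 ≤ lam ^ 2 / 36 * (6 / lam) ^ 2 :=
            mul_le_mul_of_nonneg_left h4 (by positivity)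
        _ = 1 := by field_simp; norm_num
    linarith

lemma w_bound (r : ℕ) {x0 x1 x2 z0 z1 z2 : ℝ} (hx : x0 + x1 + x2 = 0) (hz : z0 + z1 + z2 = 0)
    (a0 : -1 ≤ x0) (a1 : -1 ≤ x1) (a2 : -1 ≤ x2) (b0 : -1 ≤ z0) (b1 : -1 ≤ z1) (b2 : -1 ≤ z2) :
    3 - r / 2 * ((x0 ^ 2 + x1 ^ 2 + x2 ^ 2) + (z0 ^ 2 + z1 ^ 2 + z2 ^ 2)) ≤
      (1 + x0) ^ r * (1 + z0) ^ r + (1 + x1) ^ r * (1 + z1) ^ r + (1 + x2) ^ r * (1 + z2) ^ r := by
  have key : ∀ x z : ℝ, -1 ≤ x → -1 ≤ z →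
      1 + r * (x + z + x * z) ≤ (1 + x) ^ r * (1 + z) ^ r := by
    intro x z h1 h2
    have g1 : 0 ≤ 1 + x := by linarith
    have g2 : 0 ≤ 1 + z := by linarith
    have g3 : 0 ≤ (1 + x) * (1 + z) := mul_nonneg g1 g2
    have h3 : 1 + r * (x + z + x * z) ≤ (1 + (x + z + x * z)) ^ r :=
      one_add_mul_le_pow (by linarith) r
    rw [← mul_pow]
    calc _ ≤ _ := h3
      _ = _ := by congr 1; ring
  have k0 := key x0 z0 a0 b0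
  have k1 := key x1 z1 a1 b1
  have k2 := key x2 z2 a2 b2
  have hr : (0 : ℝ) ≤ r := Nat.cast_nonneg r
  have e : (r : ℝ) * (x0 + z0 + x0 * z0) + r * (x1 + z1 + x1 * z1) + r * (x2 + z2 + x2 * z2) =
      r * ((x0 + x1 + x2) + (z0 + z1 + z2) + (x0 * z0 + x1 * z1 + x2 * z2)) := by ring
  rw [hx, hz] at e
  have h5 : -((x0 ^ 2 + x1 ^ 2 + x2 ^ 2) + (z0 ^ 2 + z1 ^ 2 + z2 ^ 2)) / 2 ≤
      x0 * z0 + x1 * z1 + x2 * z2 := by
    linarith [sq_nonneg (x0 + z0), sq_nonneg (x1 + z1), sq_nonneg (x2 + z2)]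
  have h6 := mul_le_mul_of_nonneg_left h5 hr
  linarith

lemma u_bound {lam : ℝ} (hl : 0 < lam) (hl1 : lam ≤ 1) {p : ℕ} (hp : 1 ≤ p) {x0 x1 x2 : ℝ}
    (hx : x0 + x1 + x2 = 0) (a0 : -1 ≤ x0) (a1 : -1 ≤ x1) (a2 : -1 ≤ x2)
    (hU : (1 + x0) ^ (2 * p) + (1 + x1) ^ (2 * p) + (1 + x2) ^ (2 * p) < 3 / lam) :
    3 + lam ^ 2 / 36 * ((2 * p : ℕ) : ℝ) ^ 2 * (x0 ^ 2 + x1 ^ 2 + x2 ^ 2) ≤
      (1 + x0) ^ (2 * p) + (1 + x1) ^ (2 * p) + (1 + x2) ^ (2 * p) := by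
  set r : ℕ := 2 * p with hr
  have hr0 : (0 : ℝ) < r := by
    have : 0 < r := by omega
    exact_mod_cast this
  have p0 : 0 ≤ (1 + x0) ^ r := pow_nonneg (by linarith) r
  have p1 : 0 ≤ (1 + x1) ^ r := pow_nonneg (by linarith) r
  have p2 : 0 ≤ (1 + x2) ^ r := pow_nonneg (by linarith) r
  have up : ∀ x : ℝ, -1 ≤ x → (1 + x) ^ r < 3 / lam → r * x ≤ 3 / lam := by
    intro x h1 h2
    by_contra h3
    push Not at h3
    have h4 : 1 + r * x ≤ (1 + x) ^ r := one_add_mul_le_pow (by linarith) r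
    linarith
  have u0 := up x0 a0 (by linarith)
  have u1 := up x1 a1 (by linarith)
  have u2 := up x2 a2 (by linarith)
  have e : (r : ℝ) * x0 + r * x1 + r * x2 = 0 := by
    rw [← mul_add, ← mul_add, hx, mul_zero]
  have e6 : 6 / lam = 3 / lam + 3 / lam := by ring
  have k0 := pow_bound hl hl1 (p := p) a0 (by rw [e6]; linarith)
  have k1 := pow_bound hl hl1 (p := p) a1 (by rw [e6]; linarith)
  have k2 := pow_bound hl hl1 (p := p) a2 (by rw [e6]; linarith)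
  rw [← hr] at k0 k1 k2
  linarith [k0, k1, k2, e]

lemma stepA_norm {θ lam : ℝ} (hl : 0 < lam) (hl1 : lam ≤ 1) (h1 : lam / 3 ≤ 1 - θ)
    (h2 : lam / 3 ≤ θ / 2) {p : ℕ} (hp : 1 ≤ p) (hbig : 9 ≤ lam ^ 3 * p)
    {x0 x1 x2 z0 z1 z2 : ℝ} (hx : x0 + x1 + x2 = 0) (hz : z0 + z1 + z2 = 0)
    (a0 : -1 ≤ x0) (a1 : -1 ≤ x1) (a2 : -1 ≤ x2) (b0 : -1 ≤ z0) (b1 : -1 ≤ z1) (b2 : -1 ≤ z2) :
    3 ≤ (1 - θ) * ((1 + x0) ^ (2 * p) * (1 + z0) ^ (2 * p) +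
        (1 + x1) ^ (2 * p) * (1 + z1) ^ (2 * p) + (1 + x2) ^ (2 * p) * (1 + z2) ^ (2 * p)) +
      θ / 2 * (((1 + x0) ^ (2 * p) * (1 + z1) ^ (2 * p) +
        (1 + x1) ^ (2 * p) * (1 + z2) ^ (2 * p) + (1 + x2) ^ (2 * p) * (1 + z0) ^ (2 * p)) +
        ((1 + x0) ^ (2 * p) * (1 + z2) ^ (2 * p) +
        (1 + x1) ^ (2 * p) * (1 + z0) ^ (2 * p) + (1 + x2) ^ (2 * p) * (1 + z1) ^ (2 * p))) := by
  set r : ℕ := 2 * p with hr
  have w0 := w_bound r hx hz a0 a1 a2 b0 b1 b2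
  have w1 := w_bound r hx (z0 := z1) (z1 := z2) (z2 := z0) (by linarith) a0 a1 a2 b1 b2 b0
  have w2 := w_bound r hx (z0 := z2) (z1 := z0) (z2 := z1) (by linarith) a0 a1 a2 b2 b0 b1
  have X0 : 0 ≤ (1 + x0) ^ r := pow_nonneg (by linarith) r
  have X1 : 0 ≤ (1 + x1) ^ r := pow_nonneg (by linarith) r
  have X2 : 0 ≤ (1 + x2) ^ r := pow_nonneg (by linarith) r
  have Z0 : 0 ≤ (1 + z0) ^ r := pow_nonneg (by linarith) r
  have Z1 : 0 ≤ (1 + z1) ^ r := pow_nonneg (by linarith) r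
  have Z2 : 0 ≤ (1 + z2) ^ r := pow_nonneg (by linarith) r
  have bern : ∀ x0 x1 x2 : ℝ, x0 + x1 + x2 = 0 → -1 ≤ x0 → -1 ≤ x1 → -1 ≤ x2 →
      3 ≤ (1 + x0) ^ r + (1 + x1) ^ r + (1 + x2) ^ r := by
    intro x0 x1 x2 hx a0 a1 a2
    have k0 : 1 + r * x0 ≤ (1 + x0) ^ r := one_add_mul_le_pow (by linarith) r
    have k1 : 1 + r * x1 ≤ (1 + x1) ^ r := one_add_mul_le_pow (by linarith) r
    have k2 : 1 + r * x2 ≤ (1 + x2) ^ r := one_add_mul_le_pow (by linarith) r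
    have e : (r : ℝ) * x0 + r * x1 + r * x2 = 0 := by
      rw [← mul_add, ← mul_add, hx, mul_zero]
    linarith
  have bX := bern x0 x1 x2 hx a0 a1 a2
  have bZ := bern z0 z1 z2 hz b0 b1 b2
  set P0 := (1 + x0) ^ r
  set P1 := (1 + x1) ^ r
  set P2 := (1 + x2) ^ r
  set Q0 := (1 + z0) ^ r
  set Q1 := (1 + z1) ^ r
  set Q2 := (1 + z2) ^ r
  have W0 : 0 ≤ P0 * Q0 + P1 * Q1 + P2 * Q2 := by positivity
  have W1 : 0 ≤ P0 * Q1 + P1 * Q2 + P2 * Q0 := by positivity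
  have W2 : 0 ≤ P0 * Q2 + P1 * Q0 + P2 * Q1 := by positivity
  have split : (1 - θ) * (P0 * Q0 + P1 * Q1 + P2 * Q2) +
      θ / 2 * ((P0 * Q1 + P1 * Q2 + P2 * Q0) + (P0 * Q2 + P1 * Q0 + P2 * Q1)) =
      lam / 3 * ((P0 + P1 + P2) * (Q0 + Q1 + Q2)) +
      ((1 - θ - lam / 3) * (P0 * Q0 + P1 * Q1 + P2 * Q2) +
      (θ / 2 - lam / 3) * (P0 * Q1 + P1 * Q2 + P2 * Q0) +
      (θ / 2 - lam / 3) * (P0 * Q2 + P1 * Q0 + P2 * Q1)) := by ring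
  rw [split]
  have c0 : 0 ≤ 1 - θ - lam / 3 := by linarith
  have c1 : 0 ≤ θ / 2 - lam / 3 := by linarith
  have rest : 0 ≤ (1 - θ - lam / 3) * (P0 * Q0 + P1 * Q1 + P2 * Q2) +
      (θ / 2 - lam / 3) * (P0 * Q1 + P1 * Q2 + P2 * Q0) +
      (θ / 2 - lam / 3) * (P0 * Q2 + P1 * Q0 + P2 * Q1) := by positivity
  by_cases hX : 3 / lam ≤ P0 + P1 + P2
  · have : 3 ≤ lam / 3 * ((P0 + P1 + P2) * (Q0 + Q1 + Q2)) := by
      have g : 3 / lam * 3 ≤ (P0 + P1 + P2) * (Q0 + Q1 + Q2) :=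
        mul_le_mul hX bZ (by norm_num) (by positivity)
      calc (3 : ℝ) = lam / 3 * (3 / lam * 3) := by field_simp
        _ ≤ _ := mul_le_mul_of_nonneg_left g (by positivity)
    linarith
  by_cases hZ : 3 / lam ≤ Q0 + Q1 + Q2
  · have : 3 ≤ lam / 3 * ((P0 + P1 + P2) * (Q0 + Q1 + Q2)) := by
      have g : 3 * (3 / lam) ≤ (P0 + P1 + P2) * (Q0 + Q1 + Q2) :=
        mul_le_mul bX hZ (by positivity) (by positivity)
      calc (3 : ℝ) = lam / 3 * (3 * (3 / lam)) := by field_simp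
        _ ≤ _ := mul_le_mul_of_nonneg_left g (by positivity)
    linarith
  push Not at hX hZ
  have uX := u_bound hl hl1 hp hx a0 a1 a2 hX
  have uZ := u_bound hl hl1 hp hz b0 b1 b2 hZ
  rw [← hr] at uX uZ
  set V := x0 ^ 2 + x1 ^ 2 + x2 ^ 2 with hV
  set Y := z0 ^ 2 + z1 ^ 2 + z2 ^ 2 with hY
  have V0 : 0 ≤ V := by positivity
  have Y0 : 0 ≤ Y := by positivity
  have hY1 : z1 ^ 2 + z2 ^ 2 + z0 ^ 2 = Y := by rw [hY]; ring
  have hY2 : z2 ^ 2 + z0 ^ 2 + z1 ^ 2 = Y := by rw [hY]; ring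
  rw [hY1] at w1
  rw [hY2] at w2
  set c : ℝ := lam ^ 2 / 36 * (r : ℝ) ^ 2 with hc
  have cpos : 0 ≤ c := by positivity
  have m1 : (3 + c * V) * (3 + c * Y) ≤ (P0 + P1 + P2) * (Q0 + Q1 + Q2) :=
    mul_le_mul uX uZ (by positivity) (by linarith)
  have m2 : 9 + 3 * c * (V + Y) ≤ (P0 + P1 + P2) * (Q0 + Q1 + Q2) := by
    linarith [m1, mul_nonneg (mul_nonneg cpos V0) (mul_nonneg cpos Y0)]
  have m3 : lam / 3 * (9 + 3 * c * (V + Y)) ≤ lam / 3 * ((P0 + P1 + P2) * (Q0 + Q1 + Q2)) :=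
    mul_le_mul_of_nonneg_left m2 (by positivity)
  have n0 := mul_le_mul_of_nonneg_left w0 c0
  have n1 := mul_le_mul_of_nonneg_left w1 c1
  have n2 := mul_le_mul_of_nonneg_left w2 c1
  have hrr : (r : ℝ) = 2 * p := by rw [hr]; push_cast; ring
  have hcr : r / 2 ≤ lam * c := by
    rw [hc, hrr]
    have hp0 : (0 : ℝ) ≤ p := Nat.cast_nonneg p
    linarith [mul_le_mul_of_nonneg_right hbig hp0]
  have hfin : (1 - lam) * (r / 2) * (V + Y) ≤ lam * c * (V + Y) := by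
    refine mul_le_mul_of_nonneg_right ?_ (by positivity)
    refine le_trans ?_ hcr
    have : (0 : ℝ) ≤ r / 2 := by positivity
    linarith [mul_nonneg hl.le this]
  linarith [m3, n0, n1, n2, hfin]

end TensorAux

end VdCExp
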